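import Mathlib

/-!
# The additivity number of the family of sets of reals with `Split(Ω, Λ)` is at most `cf(𝔲)`
-/

open Set
open scoped Cardinal

namespace Pool.Agent.Results.MP_312f56_gt.AddLeCofU

/-- `C` is an open cover of the subspace `X` of the real line: its members are open subsets of
the subspace `X`, their union is `X`, and `X` itself is not a member. -/
structure IsOpenCover (X : Set ℝ) (C : Set (Set X)) : Prop where
  isOpen : ∀ u ∈ C, IsOpen u
  covers : ⋃₀ C = univ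
  proper : (univ : Set X) ∉ C

/-- An open large cover: every point lies in infinitely many members. -/
structure IsLargeCover (X : Set ℝ) (C : Set (Set X)) : Prop extends IsOpenCover X C where
  large : ∀ x : X, {u ∈ C | x ∈ u}.Infinite

/-- An open `ω`-cover: every finite subset of `X` is contained in some member. -/
structure IsOmegaCover (X : Set ℝ) (C : Set (Set X)) : Prop extends IsOpenCover X C where
  omega : ∀ F : Set X, F.Finite → ∃ u ∈ C, F ⊆ u

/-- The splitting property `Split(Ω, Λ)` for a set `X` of reals. -/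
def SplitOmegaLambda (X : Set ℝ) : Prop :=
  ∀ C : Set (Set X), IsOmegaCover X C →
    ∃ V W : Set (Set X), V ∪ W = C ∧ Disjoint V W ∧
      (∃ V' ⊆ V, IsLargeCover X V') ∧ ∃ W' ⊆ W, IsLargeCover X W'

/-- The additivity number of the family of sets of reals which satisfy `Split(Ω, Λ)`. -/
noncomputable def addSplit : Cardinal.{0} :=
  sInf {κ | ∃ F : Set (Set ℝ), (∀ X ∈ F, SplitOmegaLambda X) ∧ ¬ SplitOmegaLambda (⋃₀ F) ∧ #F = κ}

/-- The ultrafilter number `𝔲`: the least cardinality of a base of a nonprincipal ultrafilter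
on `ℕ`. -/
noncomputable def ultrafilterNumber : Cardinal.{0} :=
  sInf {κ | ∃ (p : Ultrafilter ℕ) (B : Set (Set ℕ)), (p : Filter ℕ) ≤ Filter.cofinite ∧
    (∀ b ∈ B, b ∈ p) ∧ (∀ A ∈ p, ∃ b ∈ B, b ⊆ A) ∧ #B = κ}

lemma ultrafilterNumber_attained :
    ∃ (p : Ultrafilter ℕ) (B : Set (Set ℕ)), (p : Filter ℕ) ≤ Filter.cofinite ∧
    (∀ b ∈ B, b ∈ p) ∧ (∀ A ∈ p, ∃ b ∈ B, b ⊆ A) ∧ #B = ultrafilterNumber := by
  have : {κ | ∃ (p : Ultrafilter ℕ) (B : Set (Set ℕ)), (p : Filter ℕ) ≤ Filter.cofinite ∧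
    (∀ b ∈ B, b ∈ p) ∧ (∀ A ∈ p, ∃ b ∈ B, b ⊆ A) ∧ #B = κ}.Nonempty :=
    ⟨_, Filter.hyperfilter ℕ, {b | b ∈ Filter.hyperfilter ℕ}, Filter.hyperfilter_le_cofinite,
      fun b hb => hb, fun A hA => ⟨A, hA, Subset.rfl⟩, rfl⟩
  exact csInf_mem this

lemma infinite_of_mem {p : Ultrafilter ℕ} (hp : (p : Filter ℕ) ≤ Filter.cofinite) {b : Set ℕ}
    (hb : b ∈ p) : b.Infinite := by
  intro hf
  have : bᶜ ∈ p := hp hf.compl_mem_cofinite
  exact Ultrafilter.compl_notMem_iff.2 hb this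

/-- A nonprincipal ultrafilter on `ℕ` has no countable base. -/
lemma aleph0_lt_ultrafilterNumber : ℵ₀ < ultrafilterNumber := by
  obtain ⟨p, B, hp, hB, hbase, hcard⟩ := ultrafilterNumber_attained
  by_contra hcon
  rw [not_lt, ← hcard, Cardinal.le_aleph0_iff_set_countable] at hcon
  have hgen : (p : Filter ℕ) = Filter.generate B := by
    apply le_antisymm
    · rw [Filter.le_generate_iff]
      exact hB
    · intro A hA
      obtain ⟨b, hb, hbA⟩ := hbase A hA
      exact Filter.mem_of_superset (Filter.mem_generate_of_mem hb) hbA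
  have : (p : Filter ℕ).IsCountablyGenerated := ⟨B, hcon, hgen⟩
  obtain ⟨b, hb⟩ := (p : Filter ℕ).exists_antitone_basis
  have hbp : ∀ n, b n ∈ p := fun n => hb.1.mem_of_mem trivial
  obtain ⟨φ, hφ, hφb⟩ : ∃ φ : ℕ → ℕ, StrictMono φ ∧ ∀ n, φ n ∈ b n :=
    Filter.extraction_forall_of_frequently fun n =>
      Nat.frequently_atTop_iff_infinite.2 (infinite_of_mem hp (hbp n))
  rcases Ultrafilter.mem_or_compl_mem p (range fun n => φ (2 * n)) with h | h
  · obtain ⟨k, -, hk⟩ := hb.1.mem_iff.1 h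
    have h1 : φ (2 * k + 1) ∈ b k := hb.2 (by omega) (hφb _)
    obtain ⟨n, hn⟩ := hk h1
    have := hφ.injective hn
    omega
  · obtain ⟨k, -, hk⟩ := hb.1.mem_iff.1 h
    have h1 : φ (2 * k) ∈ b k := hb.2 (by omega) (hφb _)
    exact hk h1 ⟨k, rfl⟩

/-- An `ω`-cover contains infinitely many members above each finite set. -/
lemma infinite_above {X : Set ℝ} {C : Set (Set X)} (hu : (univ : Set X) ∉ C)
    (hC : ∀ F : Set X, F.Finite → ∃ u ∈ C, F ⊆ u) (F : Set X) (hF : F.Finite) :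
    {u ∈ C | F ⊆ u}.Infinite := by
  intro hfin
  have hne : ∀ u : {u ∈ C | F ⊆ u}, ∃ x : X, x ∉ (u : Set X) := by
    rintro ⟨u, hu', -⟩
    by_contra hcon
    push Not at hcon
    exact hu ((eq_univ_of_forall hcon) ▸ hu')
  choose x hx using hne
  have : Finite {u ∈ C | F ⊆ u} := hfin
  obtain ⟨u, huC, huF⟩ := hC (F ∪ range x) (hF.union (finite_range x))
  exact hx ⟨u, huC, subset_union_left.trans huF⟩ (huF (Or.inr (mem_range_self _)))

/-- An open `ω`-cover of a set of reals contains a countable `ω`-subcover. -/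
lemma countable_subcover {X : Set ℝ} {C : Set (Set X)} (hC : IsOmegaCover X C) :
    ∃ D ⊆ C, D.Countable ∧ ∀ F : Set X, F.Finite → ∃ u ∈ D, F ⊆ u := by
  have h : ∀ n : ℕ, ∃ T ⊆ C, T.Countable ∧
      (⋃ u ∈ T, {f : Fin n → X | ∀ i, f i ∈ u}) = ⋃ u ∈ C, {f : Fin n → X | ∀ i, f i ∈ u} := by
    intro n
    have := TopologicalSpace.isOpen_biUnion_countable C
      (fun u => {f : Fin n → X | ∀ i, f i ∈ u}) ?_
    · obtain ⟨T, h1, h2, h3⟩ := this
      exact ⟨T, h1, h2, h3⟩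
    · intro u hu
      have : {f : Fin n → X | ∀ i, f i ∈ u} = ⋂ i, (fun f : Fin n → X => f i) ⁻¹' u := by
        ext f; simp
      rw [this]
      exact isOpen_iInter_of_finite fun i => (hC.isOpen u hu).preimage (continuous_apply i)
  choose T hTC hTc hTu using h
  refine ⟨⋃ n, T n, iUnion_subset hTC, countable_iUnion hTc, fun F hF => ?_⟩
  have : Finite F := hF
  obtain ⟨n, ⟨e⟩⟩ := Finite.exists_equiv_fin F
  have hf : (fun i => (e.symm i : X)) ∈ ⋃ u ∈ C, {f : Fin n → X | ∀ i, f i ∈ u} := by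
    obtain ⟨u, hu, huF⟩ := hC.omega F hF
    simp only [mem_iUnion]
    exact ⟨u, hu, fun i => huF (e.symm i).2⟩
  rw [← hTu] at hf
  simp only [mem_iUnion] at hf
  obtain ⟨u, hu, huF⟩ := hf
  refine ⟨u, mem_iUnion.2 ⟨n, hu⟩, fun x hx => ?_⟩
  have := huF (e ⟨x, hx⟩)
  simpa using this

/-- A family of fewer than `𝔲` subsets of `ℕ` with infinite finite intersections is split by a
single set. -/
lemma exists_splitting {ι : Type} (hι : #ι < ultrafilterNumber) (h : ι → Set ℕ)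
    (hinf : ∀ F : Finset ι, (⋂ x ∈ F, h x).Infinite) :
    ∃ A : Set ℕ, ∀ x, (h x ∩ A).Infinite ∧ (h x \ A).Infinite := by
  classical
  let G : Finset ι × ℕ → Set ℕ := fun q => (⋂ x ∈ q.1, h x) \ Iio q.2
  let fil : Filter ℕ :=
    { sets := {A | ∃ q, G q ⊆ A}
      univ_sets := ⟨(∅, 0), subset_univ _⟩
      sets_of_superset := fun ⟨q, hq⟩ hxy => ⟨q, hq.trans hxy⟩
      inter_sets := by
        rintro A A' ⟨q, hq⟩ ⟨q', hq'⟩
        refine ⟨(q.1 ∪ q'.1, max q.2 q'.2), fun n hn => ?_⟩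
        simp only [G, mem_sdiff, mem_iInter, Finset.mem_union, mem_Iio, lt_max_iff, not_or] at hn
        exact ⟨hq ⟨mem_iInter₂.2 fun x hx => hn.1 x (Or.inl hx), hn.2.1⟩,
          hq' ⟨mem_iInter₂.2 fun x hx => hn.1 x (Or.inr hx), hn.2.2⟩⟩ }
  have hmem : ∀ A, A ∈ fil ↔ ∃ q, G q ⊆ A := fun A => Iff.rfl
  have hGinf : ∀ q, (G q).Infinite := fun q => (hinf q.1).sdiff (finite_Iio q.2)
  have hne : ∀ A, A ∈ fil → Aᶜ ∉ fil := by
    rintro A hA hA'
    have : (∅ : Set ℕ) ∈ fil := by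
      have := Filter.inter_mem hA hA'
      rwa [inter_compl_self] at this
    obtain ⟨q, hq⟩ := (hmem _).1 this
    exact (hGinf q).nonempty.ne_empty (subset_empty_iff.1 hq)
  have hcof : fil ≤ Filter.cofinite := by
    intro A hA
    rw [Filter.mem_cofinite] at hA
    obtain ⟨m, hm⟩ := hA.bddAbove
    refine ⟨(∅, m + 1), fun n hn => ?_⟩
    by_contra hcon
    have := hm hcon
    have h2 := hn.2
    simp only [mem_Iio, not_lt] at h2
    omega
  -- some set is not decided by the filter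
  obtain ⟨A, hA, hA'⟩ : ∃ A, A ∉ fil ∧ Aᶜ ∉ fil := by
    by_contra hcon
    push Not at hcon
    let p : Ultrafilter ℕ := Ultrafilter.ofComplNotMemIff fil fun s =>
      ⟨fun hs => by_contra fun hs' => hs (hcon s hs'), fun hs => hne s hs⟩
    have hp : ∀ A, A ∈ p ↔ A ∈ fil := fun A => Iff.rfl
    have h1 : ultrafilterNumber ≤ #(range G) := by
      apply csInf_le'
      refine ⟨p, range G, hcof, ?_, ?_, rfl⟩
      · rintro _ ⟨q, rfl⟩
        exact ⟨q, Subset.rfl⟩
      · intro A hA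
        obtain ⟨q, hq⟩ := (hmem A).1 hA
        exact ⟨G q, mem_range_self q, hq⟩
    have h2 : #(range G) ≤ max #ι ℵ₀ := by
      refine Cardinal.mk_range_le.trans ?_
      rw [Cardinal.mk_prod, Cardinal.lift_id, Cardinal.lift_id, Cardinal.mk_nat]
      have h3 : #(Finset ι) ≤ max #ι ℵ₀ := by
        cases finite_or_infinite ι
        · exact (Cardinal.lt_aleph0_of_finite _).le.trans (le_max_right _ _)
        · rw [Cardinal.mk_finset_of_infinite]; exact le_max_left _ _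
      calc #(Finset ι) * ℵ₀ ≤ max #ι ℵ₀ * max #ι ℵ₀ := mul_le_mul' h3 (le_max_right _ _)
        _ = max #ι ℵ₀ := Cardinal.mul_eq_self (le_max_right _ _)
    exact absurd (h1.trans h2) (not_le.2 (max_lt hι aleph0_lt_ultrafilterNumber))
  have hh : ∀ x, h x ∈ fil := fun x =>
    ⟨({x}, 0), fun n hn => by simpa using hn.1⟩
  refine ⟨A, fun x => ⟨fun hfin => hA' ?_, fun hfin => hA ?_⟩⟩
  · refine Filter.mem_of_superset (Filter.inter_mem (hh x) (hcof hfin.compl_mem_cofinite)) ?_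
    rintro n ⟨h1, h2⟩ h3
    exact h2 ⟨h1, h3⟩
  · refine Filter.mem_of_superset (Filter.inter_mem (hh x) (hcof hfin.compl_mem_cofinite)) ?_
    rintro n ⟨h1, h2⟩
    by_contra h3
    exact h2 ⟨h1, h3⟩

/-- Every set of reals of cardinality less than `𝔲` satisfies `Split(Ω, Λ)`. -/
lemma split_of_small {X : Set ℝ} (hX : #X < ultrafilterNumber) : SplitOmegaLambda X := by
  classical
  intro C hC
  obtain ⟨D, hDC, hDc, hD⟩ := countable_subcover hC
  have hproper : (univ : Set X) ∉ D := fun h => hC.proper (hDC h)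
  have hDinf : D.Infinite := by
    have := infinite_above hproper hD ∅ finite_empty
    simpa using this
  have : Countable D := hDc
  have : Infinite D := hDinf.to_subtype
  obtain ⟨e⟩ : Nonempty (ℕ ≃ D) := by
    obtain ⟨_⟩ := nonempty_denumerable D
    exact ⟨(Denumerable.eqv D).symm⟩
  have hinf : ∀ F : Finset X, (⋂ x ∈ F, {n : ℕ | x ∈ (e n : Set X)}).Infinite := by
    intro F
    have h1 := infinite_above hproper hD F F.finite_toSet
    have h2 : {u ∈ D | (F : Set X) ⊆ u} ⊆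
        (fun n => (e n : Set X)) '' (⋂ x ∈ F, {n : ℕ | x ∈ (e n : Set X)}) := by
      rintro u ⟨hu, hFu⟩
      refine ⟨e.symm ⟨u, hu⟩, mem_iInter₂.2 fun x hx => ?_, by simp⟩
      simpa using hFu hx
    exact (h1.mono h2).of_image _
  obtain ⟨A, hA⟩ := exists_splitting hX (fun x : X => {n : ℕ | x ∈ (e n : Set X)}) hinf
  have einj : Function.Injective (fun n => (e n : Set X)) :=
    Subtype.val_injective.comp e.injective
  have key : ∀ S : Set ℕ, (∀ x : X, ({n : ℕ | x ∈ (e n : Set X)} ∩ S).Infinite) →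
      IsLargeCover X ((fun n => (e n : Set X)) '' S) := by
    intro S hS
    refine ⟨⟨?_, ?_, ?_⟩, ?_⟩
    · rintro _ ⟨n, -, rfl⟩
      exact hC.isOpen _ (hDC (e n).2)
    · rw [eq_univ_iff_forall]
      intro x
      obtain ⟨n, hn, hnS⟩ := (hS x).nonempty
      exact ⟨_, ⟨n, hnS, rfl⟩, hn⟩
    · rintro ⟨n, -, hn⟩
      exact hproper (by rw [← hn]; exact (e n).2)
    · intro x
      refine ((hS x).image einj.injOn).mono ?_
      rintro _ ⟨n, ⟨hn, hnS⟩, rfl⟩
      exact ⟨⟨n, hnS, rfl⟩, hn⟩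
  refine ⟨C \ ((fun n => (e n : Set X)) '' Aᶜ), (fun n => (e n : Set X)) '' Aᶜ, ?_, ?_,
    ⟨(fun n => (e n : Set X)) '' A, ?_, key A fun x => (hA x).1⟩,
    ⟨(fun n => (e n : Set X)) '' Aᶜ, Subset.rfl, key Aᶜ fun x => (hA x).2⟩⟩
  · apply sdiff_union_of_subset
    rintro _ ⟨n, -, rfl⟩
    exact hDC (e n).2
  · exact disjoint_sdiff_left
  · rintro _ ⟨n, hn, rfl⟩
    refine ⟨hDC (e n).2, ?_⟩
    rintro ⟨m, hm, hmn⟩
    exact hm (einj hmn ▸ hn)

/-- The homeomorphic copy in the real line of a set of naturals. -/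
noncomputable def code (b : Set ℕ) : ℝ := by
  classical
  exact (cantorSetHomeomorphNatToBool.symm (fun n => decide (n ∈ b)) : ℝ)

lemma code_mem (b : Set ℕ) : code b ∈ cantorSet := Subtype.prop _

lemma decode (b : Set ℕ) (n : ℕ) :
    cantorSetHomeomorphNatToBool ⟨code b, code_mem b⟩ n = true ↔ n ∈ b := by
  classical
  have : (⟨code b, code_mem b⟩ : cantorSet) =
      cantorSetHomeomorphNatToBool.symm (fun n => decide (n ∈ b)) := by
    apply Subtype.ext
    unfold code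
    rfl
  rw [this]
  simp

lemma code_injective : Function.Injective code := by
  intro b b' h
  ext n
  rw [← decode b, ← decode b']
  have : (⟨code b, code_mem b⟩ : cantorSet) = ⟨code b', code_mem b'⟩ := Subtype.ext h
  rw [this]

/-- There is a set of reals of cardinality `𝔲` without `Split(Ω, Λ)`. -/
lemma exists_not_split : ∃ X : Set ℝ, #X = ultrafilterNumber ∧ ¬ SplitOmegaLambda X := by
  classical
  obtain ⟨p, B, hp, hB, hbase, hcard⟩ := ultrafilterNumber_attained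
  refine ⟨code '' B, by rw [Cardinal.mk_image_eq code_injective, hcard], fun hsplit => ?_⟩
  have hX : ∀ x : (code '' B : Set ℝ), ∃ b ∈ B, code b = x := fun x => x.2
  have hXc : ∀ x : (code '' B : Set ℝ), (x : ℝ) ∈ cantorSet := by
    rintro ⟨_, b, -, rfl⟩
    exact code_mem b
  let O : ℕ → Set (code '' B : Set ℝ) := fun n =>
    {x | cantorSetHomeomorphNatToBool ⟨x, hXc x⟩ n = true}
  have hO : ∀ n (b : Set ℕ) (hb : b ∈ B), (⟨code b, ⟨b, hb, rfl⟩⟩ : (code '' B : Set ℝ)) ∈ O n ↔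
      n ∈ b := fun n b hb => decode b n
  have hOopen : ∀ n, IsOpen (O n) := by
    intro n
    have hcont : Continuous fun x : (code '' B : Set ℝ) =>
        cantorSetHomeomorphNatToBool ⟨x, hXc x⟩ n :=
      (continuous_apply n).comp (cantorSetHomeomorphNatToBool.continuous.comp
        (Continuous.subtype_mk continuous_subtype_val _))
    exact (isOpen_discrete {true}).preimage hcont
  have hproper : ∀ n, O n ≠ univ := by
    intro n hn
    have : {n}ᶜ ∈ p := hp (finite_singleton n).compl_mem_cofinite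
    obtain ⟨b, hb, hbn⟩ := hbase _ this
    have h1 : (⟨code b, ⟨b, hb, rfl⟩⟩ : (code '' B : Set ℝ)) ∈ O n := hn ▸ mem_univ _
    exact hbn ((hO n b hb).1 h1) rfl
  have homega : ∀ F : Set (code '' B : Set ℝ), F.Finite → ∃ n, F ⊆ O n := by
    intro F hF
    have : (⋂ x ∈ F, {n | x ∈ O n}) ∈ p := by
      apply (Filter.biInter_mem hF).2
      rintro ⟨_, b, hb, rfl⟩ -
      refine Filter.mem_of_superset (hB b hb) fun n hn => ?_
      exact (hO n b hb).2 hn
    obtain ⟨n, hn⟩ := Ultrafilter.nonempty_of_mem this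
    exact ⟨n, fun x hx => mem_iInter₂.1 hn x hx⟩
  obtain ⟨V, W, hVW, hdisj, ⟨V', hV', hVl⟩, ⟨W', hW', hWl⟩⟩ := hsplit (range O)
    { isOpen := by rintro _ ⟨n, rfl⟩; exact hOopen n
      covers := by
        rw [eq_univ_iff_forall]
        intro x
        obtain ⟨n, hn⟩ := homega {x} (finite_singleton x)
        exact ⟨O n, mem_range_self n, hn rfl⟩
      proper := by rintro ⟨n, hn⟩; exact hproper n hn
      omega := fun F hF => by
        obtain ⟨n, hn⟩ := homega F hF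
        exact ⟨O n, mem_range_self n, hn⟩ }
  rcases Ultrafilter.mem_or_compl_mem p {n | O n ∈ V} with h | h
  · obtain ⟨b, hb, hbA⟩ := hbase _ h
    have : (⟨code b, ⟨b, hb, rfl⟩⟩ : (code '' B : Set ℝ)) ∈ ⋃₀ W' := hWl.covers ▸ mem_univ _
    obtain ⟨w, hw, hbw⟩ := this
    obtain ⟨n, rfl⟩ : w ∈ range O := hVW ▸ Or.inr (hW' hw)
    have h1 : O n ∈ V := hbA ((hO n b hb).1 hbw)
    exact (disjoint_left.1 hdisj h1 (hW' hw))
  · obtain ⟨b, hb, hbA⟩ := hbase _ h
    have : (⟨code b, ⟨b, hb, rfl⟩⟩ : (code '' B : Set ℝ)) ∈ ⋃₀ V' := hVl.covers ▸ mem_univ _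
    obtain ⟨v, hv, hbv⟩ := this
    obtain ⟨n, rfl⟩ : v ∈ range O := hVW ▸ Or.inl (hV' hv)
    exact hbA ((hO n b hb).1 hbv) (hV' hv)

/-- A set of cardinality `c ≥ ℵ₀` is the union of `cf c` (or fewer) subsets of smaller
cardinality. -/
lemma exists_decomposition (X : Set ℝ) (c : Cardinal.{0}) (hc : ℵ₀ ≤ c) (hX : #X = c) :
    ∃ F : Set (Set ℝ), ⋃₀ F = X ∧ (∀ Y ∈ F, #Y < c) ∧ #F ≤ c.ord.cof := by
  obtain ⟨e⟩ : Nonempty (c.ord.ToType ≃ X) := by
    rw [← Cardinal.eq, Cardinal.mk_ord_toType, hX]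
  obtain ⟨S, hS, hScard⟩ := Order.exists_cof_eq c.ord.ToType
  refine ⟨(fun i => (fun a => (e a : ℝ)) '' Iic i) '' S, ?_, ?_, ?_⟩
  · apply Subset.antisymm
    · rintro x ⟨_, ⟨i, -, rfl⟩, a, -, rfl⟩
      exact (e a).2
    · intro x hx
      obtain ⟨i, hi, hai⟩ := hS (e.symm ⟨x, hx⟩)
      exact ⟨_, ⟨i, hi, rfl⟩, e.symm ⟨x, hx⟩, hai, by simp⟩
  · rintro _ ⟨i, -, rfl⟩
    refine Cardinal.mk_image_le.trans_lt ?_
    rw [← Iio_insert]
    refine (Cardinal.mk_insert_le).trans_lt ?_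
    exact Cardinal.add_lt_of_lt hc (Cardinal.mk_Iio_toType_ord_lt i) (Cardinal.one_lt_aleph0.trans_le hc)
  · refine Cardinal.mk_image_le.trans ?_
    rw [hScard, Ordinal.cof_toType]

/-- **Theorem.** `add(Split(Ω, Λ)) ≤ cf(𝔲)`, and the minimum which defines the additivity number
is attained. -/
theorem result :
    (∃ F : Set (Set ℝ), (∀ X ∈ F, SplitOmegaLambda X) ∧ ¬ SplitOmegaLambda (⋃₀ F) ∧
      #F = addSplit) ∧
    addSplit ≤ ultrafilterNumber.ord.cof := by
  obtain ⟨X, hX, hns⟩ := exists_not_split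
  obtain ⟨F, hF, hsmall, hcard⟩ :=
    exists_decomposition X ultrafilterNumber aleph0_lt_ultrafilterNumber.le hX
  have hmem : #F ∈ {κ | ∃ F : Set (Set ℝ), (∀ X ∈ F, SplitOmegaLambda X) ∧
      ¬ SplitOmegaLambda (⋃₀ F) ∧ #F = κ} :=
    ⟨F, fun Y hY => split_of_small (hsmall Y hY), by rw [hF]; exact hns, rfl⟩
  exact ⟨csInf_mem ⟨_, hmem⟩, (csInf_le' hmem).trans hcard⟩

end Pool.Agent.Results.MP_312f56_gt.AddLeCofU
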