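import Pool.Agent.Results.MP_312f56_gt.AddLeCofU

/-!
# Lower bounds for the additivity number of the family of sets of reals with `Split(Ω, Λ)`

`ℵ₁ ≤ axiomANumber ≤ covJ ≤ addSplit`.
-/

set_option autoImplicit false

open Set
open scoped Cardinal

namespace Pool.Agent.Results.MP_312f56_gt.ForcingLower

open Pool.Agent.Results.MP_312f56_gt.AddLeCofU

/-! ### Forcing notions -/

/-- Two conditions are compatible if they have a common extension (smaller is stronger). -/
def Compat {P : Type} [Preorder P] (a b : P) : Prop := ∃ c, c ≤ a ∧ c ≤ b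

/-- Dense sets of conditions. -/
def DenseSet {P : Type} [Preorder P] (D : Set P) : Prop := ∀ p, ∃ q ∈ D, q ≤ p

/-- Filters of conditions. -/
structure IsFilt {P : Type} [Preorder P] (G : Set P) : Prop where
  nonempty : G.Nonempty
  up : ∀ p ∈ G, ∀ q, p ≤ q → q ∈ G
  directed : ∀ p ∈ G, ∀ q ∈ G, ∃ r ∈ G, r ≤ p ∧ r ≤ q

/-- Baumgartner's Axiom A for a forcing notion: there are orderings `≤ₙ`, finer and finer and
all finer than `≤`, such that every sequence with `pₙ₊₁ ≤ₙ pₙ` has a lower bound `q ≤ₙ pₙ`, and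
such that for all `p` and `n` and every antichain `A` some `q ≤ₙ p` is compatible with only
countably many members of `A`. -/
def AxiomA (P : Type) [Preorder P] : Prop :=
  ∃ le : ℕ → P → P → Prop,
    (∀ n p, le n p p) ∧ (∀ n p q r, le n p q → le n q r → le n p r) ∧
    (∀ n p q, le n p q → p ≤ q) ∧ (∀ n p q, le (n + 1) p q → le n p q) ∧
    (∀ p : ℕ → P, (∀ n, le n (p (n + 1)) (p n)) → ∃ q, ∀ n, le n q (p n)) ∧
    ∀ A : Set P, (∀ a ∈ A, ∀ b ∈ A, a ≠ b → ¬ Compat a b) → ∀ p n,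
      ∃ q, le n q p ∧ {a ∈ A | Compat a q}.Countable

/-- The forcing axiom number of the class of Axiom A forcing notions: the least cardinality of a
family of dense subsets of an Axiom A forcing notion which is not met by any filter. -/
noncomputable def axiomANumber : Cardinal.{0} :=
  sInf {κ | ∃ (P : Type) (_ : Preorder P), Nonempty P ∧ AxiomA P ∧
    ∃ D : Set (Set P), (∀ d ∈ D, DenseSet d) ∧ (¬ ∃ G : Set P, IsFilt G ∧ ∀ d ∈ D, (G ∩ d).Nonempty) ∧
      #D = κ}

/-! ### Signed partitions -/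

/-- A signed partition of `ℕ` for the ultrafilter `U`: an equivalence relation `E` on `ℕ` all of
whose classes are outside `U`, and a colouring `chi` of `ℕ` with two colours. -/
structure Cond (U : Ultrafilter ℕ) where
  /-- the equivalence relation -/
  E : ℕ → ℕ → Prop
  equiv : Equivalence E
  /-- the colouring -/
  chi : ℕ → Bool
  small : ∀ a, {b | E a b} ∉ U

variable {U : Ultrafilter ℕ}

/-- `p ≤ q`: the partition `p` is coarser than `q` and on each class of `q` the colouring of `p`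
is the colouring of `q` or the opposite one. -/
instance : Preorder (Cond U) where
  le p q := (∀ a b, q.E a b → p.E a b) ∧
    ∀ a b, q.E a b → (p.chi a = p.chi b ↔ q.chi a = q.chi b)
  le_refl p := ⟨fun _ _ h => h, fun _ _ _ => Iff.rfl⟩
  le_trans p q r h h' := ⟨fun a b hab => h.1 a b (h'.1 a b hab),
    fun a b hab => (h.2 a b (h'.1 a b hab)).trans (h'.2 a b hab)⟩

lemma le_def {p q : Cond U} : p ≤ q ↔ (∀ a b, q.E a b → p.E a b) ∧
    ∀ a b, q.E a b → (p.chi a = p.chi b ↔ q.chi a = q.chi b) := Iff.rfl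

/-- The cube of a signed partition: all colourings which on each class agree with the given
colouring or with the opposite one. -/
def cube (p : Cond U) : Set (ℕ → Bool) :=
  {C | ∀ a b, p.E a b → (C a = C b ↔ p.chi a = p.chi b)}

/-- The ideal `J_U` of sets of colourings which are null with respect to the cubes: every cube
contains a smaller one disjoint from the set. -/
def IsNull (U : Ultrafilter ℕ) (Z : Set (ℕ → Bool)) : Prop :=
  ∀ p : Cond U, ∃ q ≤ p, Disjoint (cube q) Z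

/-- The least cardinality of a cover of `2^ℕ` by `J_U`-null sets, `U` ranging over the
nonprincipal ultrafilters on `ℕ`. -/
noncomputable def covJ : Cardinal.{0} :=
  sInf {κ | ∃ U : Ultrafilter ℕ, (U : Filter ℕ) ≤ Filter.cofinite ∧
    ∃ F : Set (Set (ℕ → Bool)), (∀ Z ∈ F, IsNull U Z) ∧ ⋃₀ F = univ ∧ #F = κ}

lemma bool3 {x y z x' y' z' : Bool} (h1 : x = y ↔ x' = y') (h2 : y = z ↔ y' = z') :
    x = z ↔ x' = z' := by
  revert x y z x' y' z'; decide

lemma biUnion_notMem {ι : Type} {s : Set ι} (hs : s.Finite) {f : ι → Set ℕ}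
    (h : ∀ i ∈ s, f i ∉ U) : (⋃ i ∈ s, f i) ∉ U := by
  intro hU
  obtain ⟨i, hi, hi'⟩ := (Ultrafilter.finite_biUnion_mem_iff hs).1 hU
  exact h i hi hi'

/-- Merge all classes contained in a saturated set `M` outside `U` and change the colouring by a
function constant on the classes. -/
def merge (p : Cond U) (M : Set ℕ) (hM : ∀ a b, p.E a b → a ∈ M → b ∈ M) (hMU : M ∉ U)
    (s : ℕ → Bool) : Cond U where
  E a b := p.E a b ∨ (a ∈ M ∧ b ∈ M)
  equiv := by
    refine ⟨fun a => Or.inl (p.equiv.refl a), ?_, ?_⟩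
    · rintro a b (h | ⟨h1, h2⟩)
      · exact Or.inl (p.equiv.symm h)
      · exact Or.inr ⟨h2, h1⟩
    · rintro a b c (h | ⟨h1, h2⟩) (h' | ⟨h1', h2'⟩)
      · exact Or.inl (p.equiv.trans h h')
      · exact Or.inr ⟨hM _ _ (p.equiv.symm h) h1', h2'⟩
      · exact Or.inr ⟨h1, hM _ _ h' h2⟩
      · exact Or.inr ⟨h1, h2'⟩
  chi a := xor (p.chi a) (s a)
  small a := by
    intro h
    by_cases ha : a ∈ M
    · refine hMU (Filter.mem_of_superset h ?_)
      rintro b (hb | hb)
      · exact hM _ _ hb ha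
      · exact hb.2
    · refine p.small a (Filter.mem_of_superset h ?_)
      rintro b (hb | hb)
      · exact hb
      · exact absurd hb.1 ha

lemma merge_le (p : Cond U) {M : Set ℕ} (hM : ∀ a b, p.E a b → a ∈ M → b ∈ M) (hMU : M ∉ U)
    {s : ℕ → Bool} (hs : ∀ a b, p.E a b → s a = s b) : merge p M hM hMU s ≤ p := by
  refine ⟨fun a b h => Or.inl h, fun a b h => ?_⟩
  show xor (p.chi a) (s a) = xor (p.chi b) (s b) ↔ _
  rw [hs a b h]
  generalize p.chi a = x
  generalize p.chi b = y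
  generalize s b = z
  revert x y z; decide

/-! ### Axiom A -/

/-- The orderings: the classes of the numbers below `n` and their colours are kept. -/
def leN (n : ℕ) (p q : Cond U) : Prop :=
  p ≤ q ∧ ∀ a < n, ∀ b, p.E a b → q.E a b ∧ p.chi b = q.chi b

lemma leN_fusion (p : ℕ → Cond U) (h : ∀ n, leN n (p (n + 1)) (p n)) :
    ∃ q, ∀ n, leN n q (p n) := by
  have up : ∀ {k l a b}, k ≤ l → (p k).E a b → (p l).E a b := by
    intro k l a b hkl hab
    induction l, hkl using Nat.le_induction with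
    | base => exact hab
    | succ l _ ih => exact (h l).1.1 _ _ ih
  have le' : ∀ {k l}, k ≤ l → p l ≤ p k := by
    intro k l hkl
    induction l, hkl using Nat.le_induction with
    | base => exact le_refl _
    | succ l _ ih => exact (h l).1.trans ih
  have down : ∀ {k l a b}, k ≤ l → a < k → (p l).E a b → (p k).E a b ∧ (p l).chi b = (p k).chi b := by
    intro k l a b hkl hak hab
    induction l, hkl using Nat.le_induction with
    | base => exact ⟨hab, rfl⟩
    | succ l hl ih =>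
      have h1 := (h l).2 a (by omega) b hab
      have h2 := ih h1.1
      exact ⟨h2.1, h1.2.trans h2.2⟩
  have cls : ∀ {k a b}, (p k).E a b → (p (a + 1)).E a b := by
    intro k a b hab
    rcases le_total k (a + 1) with hk | hk
    · exact up hk hab
    · exact (down hk (by omega) hab).1
  have col : ∀ {k a}, a + 1 ≤ k → (p k).chi a = (p (a + 1)).chi a := by
    intro k a hk
    exact (down hk (by omega) ((p k).equiv.refl a)).2
  refine ⟨⟨fun a b => ∃ k, (p k).E a b, ⟨?_, ?_, ?_⟩, fun b => (p (b + 1)).chi b, ?_⟩, ?_⟩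
  · exact fun a => ⟨0, (p 0).equiv.refl a⟩
  · rintro a b ⟨k, hk⟩
    exact ⟨k, (p k).equiv.symm hk⟩
  · rintro a b c ⟨k, hk⟩ ⟨l, hl⟩
    exact ⟨max k l, (p _).equiv.trans (up (le_max_left _ _) hk) (up (le_max_right _ _) hl)⟩
  · intro a ha
    refine (p (a + 1)).small a (Filter.mem_of_superset ha ?_)
    rintro b ⟨k, hk⟩
    exact cls hk
  · intro n
    refine ⟨⟨fun a b hab => ⟨n, hab⟩, fun a b hab => ?_⟩, ?_⟩
    · show (p (a + 1)).chi a = (p (b + 1)).chi b ↔ _
      rw [← col (k := max n (max (a + 1) (b + 1))) (a := a) (by omega),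
        ← col (k := max n (max (a + 1) (b + 1))) (a := b) (by omega)]
      exact (le' (le_max_left _ _)).2 a b hab
    · rintro a ha b ⟨k, hk⟩
      have h1 : (p n).E a b := by
        rcases le_total k n with hkn | hkn
        · exact up hkn hk
        · exact (down hkn ha hk).1
      refine ⟨h1, ?_⟩
      show (p (b + 1)).chi b = _
      rw [← col (k := max n (b + 1)) (a := b) (by omega)]
      exact (down (le_max_left _ _) ha (up (le_max_left _ _) h1)).2

/-- The unmerging lemma. -/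
lemma unmerge {t w : Cond U} {n m : ℕ} (hwt : w ≤ t) (hw : ∀ i < n, w.E m i)
    (hm : ∀ i < n, ¬ t.E i m) :
    ∃ t', leN n t' t ∧ ∀ r ≤ t', (∀ i < n, r.E m i) →
      (∀ i < n, (r.chi m = r.chi i ↔ w.chi m = w.chi i)) → r ≤ w := by
  classical
  let L : Set ℕ := {b | ∃ i < n, t.E i b}
  have hL : ∀ {a b}, t.E a b → a ∈ L → b ∈ L := by
    rintro a b hab ⟨i, hi, hia⟩
    exact ⟨i, hi, t.equiv.trans hia hab⟩
  have hmL : m ∉ L := by
    rintro ⟨i, hi, hia⟩
    exact hm i hi hia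
  let t' : Cond U :=
    { E := fun a b => (a ∈ L ∧ t.E a b) ∨ (a ∉ L ∧ b ∉ L ∧ w.E a b)
      equiv := by
        refine ⟨fun a => ?_, ?_, ?_⟩
        · by_cases ha : a ∈ L
          · exact Or.inl ⟨ha, t.equiv.refl a⟩
          · exact Or.inr ⟨ha, ha, w.equiv.refl a⟩
        · rintro a b (⟨h1, h2⟩ | ⟨h1, h2, h3⟩)
          · exact Or.inl ⟨hL h2 h1, t.equiv.symm h2⟩
          · exact Or.inr ⟨h2, h1, w.equiv.symm h3⟩
        · rintro a b c (⟨h1, h2⟩ | ⟨h1, h2, h3⟩) (⟨h1', h2'⟩ | ⟨h1', h2', h3'⟩)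
          · exact Or.inl ⟨h1, t.equiv.trans h2 h2'⟩
          · exact absurd (hL h2 h1) h1'
          · exact absurd h1' h2
          · exact Or.inr ⟨h1, h2', w.equiv.trans h3 h3'⟩
      chi := fun b => if b ∈ L then t.chi b else w.chi b
      small := by
        intro a ha
        by_cases haL : a ∈ L
        · refine t.small a (Filter.mem_of_superset ha ?_)
          rintro b (⟨-, hb⟩ | ⟨hb, -⟩)
          · exact hb
          · exact absurd haL hb
        · refine w.small a (Filter.mem_of_superset ha ?_)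
          rintro b (⟨hb, -⟩ | ⟨-, -, hb⟩)
          · exact absurd hb haL
          · exact hb }
  have hchiL : ∀ b ∈ L, t'.chi b = t.chi b := fun b hb => if_pos hb
  have hchiN : ∀ b ∉ L, t'.chi b = w.chi b := fun b hb => if_neg hb
  have ht't : t' ≤ t := by
    refine ⟨fun a b hab => ?_, fun a b hab => ?_⟩
    · by_cases ha : a ∈ L
      · exact Or.inl ⟨ha, hab⟩
      · exact Or.inr ⟨ha, fun hb => ha (hL (t.equiv.symm hab) hb), hwt.1 a b hab⟩
    · by_cases ha : a ∈ L
      · rw [hchiL a ha, hchiL b (hL hab ha)]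
      · rw [hchiN a ha, hchiN b fun hb => ha (hL (t.equiv.symm hab) hb)]
        exact hwt.2 a b hab
  refine ⟨t', ⟨ht't, ?_⟩, ?_⟩
  · intro a ha b hab
    have haL : a ∈ L := ⟨a, ha, t.equiv.refl a⟩
    rcases hab with ⟨-, hab⟩ | ⟨hab, -⟩
    · exact ⟨hab, hchiL b (hL hab haL)⟩
    · exact absurd haL hab
  · intro r hr hrm hrc
    have hrt : r ≤ t := hr.trans ht't
    -- everything in the `w`-class of `m` is in the `r`-class of `m`, with the right colour
    have key : ∀ a, w.E m a → r.E m a ∧ (r.chi m = r.chi a ↔ w.chi m = w.chi a) := by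
      intro a hma
      by_cases ha : a ∈ L
      · obtain ⟨i, hi, hia⟩ := ha
        refine ⟨r.equiv.trans (hrm i hi) (hrt.1 _ _ hia), ?_⟩
        refine bool3 (hrc i hi) ?_
        exact (hrt.2 i a hia).trans (hwt.2 i a hia).symm
      · have hE : t'.E m a := Or.inr ⟨hmL, ha, hma⟩
        refine ⟨hr.1 _ _ hE, ?_⟩
        rw [hr.2 _ _ hE, hchiN _ hmL, hchiN _ ha]
    have hLm : ∀ a ∈ L, w.E m a := by
      rintro a ⟨i, hi, hia⟩
      exact w.equiv.trans (hw i hi) (hwt.1 _ _ hia)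
    have both : ∀ a b, w.E m a → w.E m b → r.E a b ∧ (r.chi a = r.chi b ↔ w.chi a = w.chi b) := by
      intro a b ha hb
      refine ⟨r.equiv.trans (r.equiv.symm (key a ha).1) (key b hb).1, ?_⟩
      refine bool3 (y := r.chi m) (y' := w.chi m) ?_ (key b hb).2
      rw [eq_comm, (key a ha).2, eq_comm]
    have main : ∀ a b, w.E a b → r.E a b ∧ (r.chi a = r.chi b ↔ w.chi a = w.chi b) := by
      intro a b hab
      by_cases ha : w.E m a
      · exact both a b ha (w.equiv.trans ha hab)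
      · have haL : a ∉ L := fun h => ha (hLm a h)
        have hbL : b ∉ L := fun h => ha (w.equiv.trans (hLm b h) (w.equiv.symm hab))
        have hE : t'.E a b := Or.inr ⟨haL, hbL, hab⟩
        refine ⟨hr.1 _ _ hE, ?_⟩
        rw [hr.2 _ _ hE, hchiN _ haL, hchiN _ hbL]
    exact ⟨fun a b hab => (main a b hab).1, fun a b hab => (main a b hab).2⟩

/-- Every condition has an extension in which finitely many given classes are merged. -/
lemma exists_merge (r : Cond U) (T : Finset ℕ) :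
    ∃ r' ≤ r, ∀ i ∈ T, ∀ j ∈ T, r'.E i j := by
  have hM : (⋃ i ∈ (T : Set ℕ), {b | r.E i b}) ∉ U :=
    biUnion_notMem T.finite_toSet fun i _ => r.small i
  refine ⟨merge r _ ?_ hM fun _ => false, merge_le r _ hM fun _ _ _ => rfl, ?_⟩
  · intro a b hab ha
    simp only [mem_iUnion] at ha ⊢
    obtain ⟨i, hi, hia⟩ := ha
    exact ⟨i, hi, r.equiv.trans hia hab⟩
  · intro i hi j hj
    refine Or.inr ⟨?_, ?_⟩
    · simp only [mem_iUnion]
      exact ⟨i, hi, r.equiv.refl i⟩
    · simp only [mem_iUnion]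
      exact ⟨j, hj, r.equiv.refl j⟩

/-- The pattern `c` is realised by `r`: the numbers below `n` are equivalent to `m`, and `c` says
which of them have the colour of `m`. -/
def Pat (n m : ℕ) (c : Fin n → Bool) (r : Cond U) : Prop :=
  ∀ i : Fin n, r.E m i ∧ (r.chi m = r.chi i ↔ c i = true)

lemma leN_trans {n : ℕ} {p q r : Cond U} (h : leN n p q) (h' : leN n q r) : leN n p r :=
  ⟨h.1.trans h'.1, fun a ha b hab => ⟨(h'.2 a ha b (h.2 a ha b hab).1).1,
    (h.2 a ha b hab).2.trans (h'.2 a ha b (h.2 a ha b hab).1).2⟩⟩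

lemma leN_refl (n : ℕ) (p : Cond U) : leN n p p :=
  ⟨le_refl p, fun _ _ _ h => ⟨h, rfl⟩⟩

lemma antichain_step (A : Set (Cond U)) (hA : ∀ a ∈ A, ∀ b ∈ A, a ≠ b → ¬ Compat a b)
    (p : Cond U) (n m : ℕ) (hm : ∀ i < n, ¬ p.E i m) (l : List (Fin n → Bool)) :
    ∃ t, leN n t p ∧ ∃ B : Set (Cond U), B.Finite ∧
      ∀ c ∈ l, ∀ r ≤ t, Pat n m c r → ∀ a ∈ A, r ≤ a → a ∈ B := by
  classical
  induction l with
  | nil => exact ⟨p, leN_refl n p, ∅, finite_empty, by simp⟩
  | cons c l ih =>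
    obtain ⟨t, ht, B, hB, hBl⟩ := ih
    by_cases hw : ∃ w ≤ t, Pat n m c w ∧ ∃ a ∈ A, w ≤ a
    · obtain ⟨w, hwt, hwc, a, haA, hwa⟩ := hw
      have hmt : ∀ i < n, ¬ t.E i m := fun i hi h => hm i hi (ht.2 i hi m h).1
      obtain ⟨t', ht', hkey⟩ := unmerge hwt (fun i hi => (hwc ⟨i, hi⟩).1) hmt
      refine ⟨t', leN_trans ht' ht, insert a B, hB.insert a, ?_⟩
      intro c' hc' r hr hrc' a' ha' hra'
      rcases List.mem_cons.1 hc' with rfl | hc'
      · left
        by_contra hne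
        refine hA a' ha' a haA hne ⟨r, hra', le_trans (hkey r hr (fun i hi => (hrc' ⟨i, hi⟩).1) ?_) hwa⟩
        intro i hi
        exact (hrc' ⟨i, hi⟩).2.trans (hwc ⟨i, hi⟩).2.symm
      · exact Or.inr (hBl c' hc' r (hr.trans ht'.1) hrc' a' ha' hra')
    · refine ⟨t, ht, B, hB, ?_⟩
      intro c' hc' r hr hrc' a' ha' hra'
      rcases List.mem_cons.1 hc' with rfl | hc'
      · exact absurd ⟨r, hr, hrc', a', ha', hra'⟩ hw
      · exact hBl c' hc' r hr hrc' a' ha' hra'

/-- In fact only finitely many members of the antichain are compatible with the condition. -/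
lemma antichain_finite (A : Set (Cond U)) (hA : ∀ a ∈ A, ∀ b ∈ A, a ≠ b → ¬ Compat a b)
    (p : Cond U) (n : ℕ) : ∃ q, leN n q p ∧ {a ∈ A | Compat a q}.Finite := by
  classical
  obtain ⟨m, hm⟩ : ∃ m, ∀ i < n, ¬ p.E i m := by
    have h1 : (⋃ i ∈ Iio n, {b | p.E i b}) ∉ U :=
      biUnion_notMem (finite_Iio n) fun i _ => p.small i
    by_contra hcon
    push Not at hcon
    apply h1
    refine Filter.mem_of_superset Filter.univ_mem fun m _ => ?_
    obtain ⟨i, hi, him⟩ := hcon m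
    simp only [mem_iUnion]
    exact ⟨i, hi, him⟩
  obtain ⟨t, ht, B, hB, hkey⟩ :=
    antichain_step A hA p n m hm (Finset.univ : Finset (Fin n → Bool)).toList
  refine ⟨t, ht, hB.subset ?_⟩
  rintro a ⟨haA, r, hra, hrt⟩
  obtain ⟨r', hr', hmerge⟩ := exists_merge r (insert m (Finset.range n))
  refine hkey (fun i => decide (r'.chi m = r'.chi i)) (by simp) r' (hr'.trans hrt) ?_ a haA
    (hr'.trans hra)
  intro i
  refine ⟨hmerge _ (Finset.mem_insert_self _ _) _ ?_, by simp⟩
  exact Finset.mem_insert_of_mem (Finset.mem_range.2 i.2)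

/-- The forcing notion of signed partitions satisfies Axiom A, for every ultrafilter. -/
theorem axiomA_cond (U : Ultrafilter ℕ) : AxiomA (Cond U) :=
  ⟨leN, leN_refl, fun _ _ _ _ => leN_trans, fun _ _ _ h => h.1,
    fun _ _ _ h => ⟨h.1, fun a ha => h.2 a (Nat.lt_succ_of_lt ha)⟩, leN_fusion,
    fun A hA p n => by
      obtain ⟨q, hq, hfin⟩ := antichain_finite A hA p n
      exact ⟨q, hq, hfin.countable⟩⟩

/-! ### Generic filters -/

/-- Countably many dense sets are met by a filter. -/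
lemma exists_filter_of_countable {P : Type} [Preorder P] [Nonempty P] {D : Set (Set P)}
    (hD : ∀ d ∈ D, DenseSet d) (hc : D.Countable) :
    ∃ G : Set P, IsFilt G ∧ ∀ d ∈ D, (G ∩ d).Nonempty := by
  classical
  obtain ⟨p₀⟩ := ‹Nonempty P›
  obtain ⟨f, hf⟩ : ∃ f : ℕ → Set P, insert univ D = range f :=
    (hc.insert univ).exists_eq_range (insert_nonempty _ _)
  have hfd : ∀ n p, ∃ q ∈ f n, q ≤ p := by
    intro n
    have : f n ∈ insert univ D := hf ▸ mem_range_self n
    rcases this with h | h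
    · intro p
      rw [h]
      exact ⟨p, mem_univ p, le_refl p⟩
    · exact hD _ h
  choose g hg hgle using hfd
  let s : ℕ → P := fun n => Nat.rec p₀ (fun k p => g k p) n
  have hs : ∀ n, s (n + 1) = g n (s n) := fun n => rfl
  have hanti : Antitone s := antitone_nat_of_succ_le fun n => hgle n (s n)
  refine ⟨{q | ∃ n, s n ≤ q}, ⟨⟨s 0, 0, le_refl _⟩, ?_, ?_⟩, ?_⟩
  · rintro p ⟨n, hn⟩ q hpq
    exact ⟨n, hn.trans hpq⟩
  · rintro p ⟨n, hn⟩ q ⟨k, hk⟩
    exact ⟨s (max n k), ⟨_, le_refl _⟩, (hanti (le_max_left _ _)).trans hn,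
      (hanti (le_max_right _ _)).trans hk⟩
  · intro d hd
    obtain ⟨n, rfl⟩ : d ∈ range f := hf ▸ Or.inr hd
    exact ⟨s (n + 1), ⟨n + 1, le_refl _⟩, hg n (s n)⟩

/-- Two numbers which are not equivalent. -/
lemma exists_not_equiv (p : Cond U) : ∃ b, ¬ p.E 0 b := by
  by_contra hcon
  push Not at hcon
  exact p.small 0 (Filter.mem_of_superset Filter.univ_mem fun m _ => hcon m)

lemma bool_solve : ∀ x y v : Bool,
    (xor x false = xor y (xor (xor x y) (!v)) ↔ v = true) := by decide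

/-- Merge the classes of `0` and of `b`, giving the colours of `0` and `b` a prescribed relation. -/
lemma exists_decide (p : Cond U) {b : ℕ} (hb : ¬ p.E 0 b) (v : Bool) :
    ∃ q ≤ p, q.E 0 b ∧ (q.chi 0 = q.chi b ↔ v = true) := by
  classical
  have hM : ({x | p.E 0 x} ∪ {x | p.E b x}) ∉ U := by
    intro h
    rcases Ultrafilter.union_mem_iff.1 h with h | h
    · exact p.small 0 h
    · exact p.small b h
  have hsat : ∀ x y, p.E x y → x ∈ {x | p.E 0 x} ∪ {x | p.E b x} →
      y ∈ {x | p.E 0 x} ∪ {x | p.E b x} := by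
    rintro x y hxy (hx | hx)
    · exact Or.inl (p.equiv.trans hx hxy)
    · exact Or.inr (p.equiv.trans hx hxy)
  let s : ℕ → Bool := fun x => if p.E b x then xor (xor (p.chi 0) (p.chi b)) (!v) else false
  have hs : ∀ x y, p.E x y → s x = s y := by
    intro x y hxy
    have : p.E b x ↔ p.E b y :=
      ⟨fun h => p.equiv.trans h hxy, fun h => p.equiv.trans h (p.equiv.symm hxy)⟩
    simp only [s, this]
  refine ⟨merge p _ hsat hM s, merge_le p hsat hM hs,
    Or.inr ⟨Or.inl (p.equiv.refl 0), Or.inr (p.equiv.refl b)⟩, ?_⟩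
  show xor (p.chi 0) (s 0) = xor (p.chi b) (s b) ↔ _
  have h0 : s 0 = false := if_neg fun h => hb (p.equiv.symm h)
  have h1 : s b = xor (xor (p.chi 0) (p.chi b)) (!v) := if_pos (p.equiv.refl b)
  rw [h0, h1]
  exact bool_solve _ _ _

instance [hU : Fact ((U : Filter ℕ) ≤ Filter.cofinite)] : Nonempty (Cond U) :=
  ⟨⟨Eq, eq_equivalence, fun _ => false, fun a h => by
    have h1 : {a}ᶜ ∈ U := hU.out (finite_singleton a).compl_mem_cofinite
    refine Ultrafilter.compl_notMem_iff.2 (Filter.mem_of_superset h ?_) h1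
    rintro b hb
    exact (Eq.symm hb)⟩⟩

/-- No filter of signed partitions meets all dense sets. -/
lemma not_generic (G : Set (Cond U)) (hG : IsFilt G) : DenseSet Gᶜ := by
  intro p
  obtain ⟨b, hb⟩ := exists_not_equiv p
  obtain ⟨q, hq, hqE, hqc⟩ := exists_decide p hb true
  obtain ⟨q', hq', hqE', hqc'⟩ := exists_decide p hb false
  by_cases h : q ∈ G
  · refine ⟨q', fun h' => ?_, hq'⟩
    obtain ⟨r, -, hr, hr'⟩ := hG.directed q h q' h'
    have h1 := (hr.2 _ _ hqE).trans hqc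
    have h2 := (hr'.2 _ _ hqE').trans hqc'
    rw [h1] at h2
    simp at h2
  · exact ⟨q, h, hq⟩

theorem aleph_one_le_axiomANumber : ℵ₁ ≤ axiomANumber := by
  apply le_csInf
  · let U : Ultrafilter ℕ := Filter.hyperfilter ℕ
    have : Fact ((U : Filter ℕ) ≤ Filter.cofinite) := ⟨Filter.hyperfilter_le_cofinite⟩
    refine ⟨_, Cond U, inferInstance, inferInstance, axiomA_cond U, {d | DenseSet d},
      fun d hd => hd, ?_, rfl⟩
    rintro ⟨G, hG, hmeet⟩
    obtain ⟨q, hq, hq'⟩ := hmeet Gᶜ (not_generic G hG)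
    exact hq' hq
  · rintro κ ⟨P, hP, hne, -, D, hD, hno, rfl⟩
    by_contra hlt
    rw [not_le] at hlt
    have hc : D.Countable := by
      rw [← Cardinal.le_aleph0_iff_set_countable]
      rw [← Cardinal.succ_aleph0] at hlt
      exact Order.lt_succ_iff.1 hlt
    exact hno (exists_filter_of_countable hD hc)

/-! ### The forcing axiom number is at most the covering number -/

lemma axiomANumber_le_of_cover {U : Ultrafilter ℕ} (hU : (U : Filter ℕ) ≤ Filter.cofinite)
    {F : Set (Set (ℕ → Bool))} (hF : ∀ Z ∈ F, IsNull U Z) (hcov : ⋃₀ F = univ) :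
    axiomANumber ≤ #F := by
  classical
  have hfact : Fact ((U : Filter ℕ) ≤ Filter.cofinite) := ⟨hU⟩
  let DZ : Set (ℕ → Bool) → Set (Cond U) := fun Z => {q | Disjoint (cube q) Z}
  let M : ℕ → Set (Cond U) := fun n => {q | q.E 0 n}
  let D : Set (Set (Cond U)) := DZ '' F ∪ range M
  have hD : ∀ d ∈ D, DenseSet d := by
    rintro _ (⟨Z, hZ, rfl⟩ | ⟨n, rfl⟩)
    · intro p
      obtain ⟨q, hq, hqZ⟩ := hF Z hZ p
      exact ⟨q, hqZ, hq⟩
    · intro p
      obtain ⟨q, hq, hqE⟩ := exists_merge p {0, n}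
      exact ⟨q, hqE 0 (by simp) n (by simp), hq⟩
  have hno : ¬ ∃ G : Set (Cond U), IsFilt G ∧ ∀ d ∈ D, (G ∩ d).Nonempty := by
    rintro ⟨G, hG, hmeet⟩
    have h0 : ∀ n, ∃ q ∈ G, q.E 0 n := by
      intro n
      obtain ⟨q, hq, hqn⟩ := hmeet (M n) (Or.inr (mem_range_self n))
      exact ⟨q, hq, hqn⟩
    choose q hqG hqE using h0
    let C : ℕ → Bool := fun n => decide ((q n).chi 0 = (q n).chi n)
    have hC : ∀ r ∈ G, C ∈ cube r := by
      intro r hr a b hab
      obtain ⟨t, ht, htr, hta⟩ := hG.directed r hr (q a) (hqG a)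
      obtain ⟨t', ht', htt, htb⟩ := hG.directed t ht (q b) (hqG b)
      have ha : (t'.chi 0 = t'.chi a ↔ (q a).chi 0 = (q a).chi a) :=
        (htt.trans hta).2 0 a (hqE a)
      have hb : (t'.chi 0 = t'.chi b ↔ (q b).chi 0 = (q b).chi b) := htb.2 0 b (hqE b)
      have hab' : (t'.chi a = t'.chi b ↔ r.chi a = r.chi b) := (htt.trans htr).2 a b hab
      show (decide ((q a).chi 0 = (q a).chi a) = decide ((q b).chi 0 = (q b).chi b)) ↔ _
      rw [← hab', decide_eq_decide, ← ha, ← hb]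
      generalize t'.chi 0 = x
      generalize t'.chi a = y
      generalize t'.chi b = z
      revert x y z; decide
    have hCu : C ∈ ⋃₀ F := hcov ▸ mem_univ C
    obtain ⟨Z, hZ, hCZ⟩ := hCu
    obtain ⟨r, hr, hrZ⟩ := hmeet (DZ Z) (Or.inl ⟨Z, hZ, rfl⟩)
    exact disjoint_left.1 hrZ (hC r hr) hCZ
  have h1 : axiomANumber ≤ #D :=
    csInf_le' ⟨Cond U, inferInstance, inferInstance, axiomA_cond U, D, hD, hno, rfl⟩
  have h2 : #D ≤ #F + ℵ₀ := by
    refine (Cardinal.mk_union_le _ _).trans (add_le_add Cardinal.mk_image_le ?_)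
    exact (countable_range M).le_aleph0
  have h3 : ℵ₀ < #F + ℵ₀ :=
    (Cardinal.aleph0_lt_aleph_one.trans_le (aleph_one_le_axiomANumber.trans h1)).trans_le h2
  have h4 : ℵ₀ ≤ #F := by
    by_contra hlt
    rw [not_le] at hlt
    have : #F + ℵ₀ = ℵ₀ := Cardinal.add_eq_right le_rfl hlt.le
    rw [this] at h3
    exact lt_irrefl _ h3
  exact (h1.trans h2).trans (Cardinal.add_eq_left h4 h4).le

/-- One colouring is a null set. -/
lemma isNull_singleton (C : ℕ → Bool) : IsNull U {C} := by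
  intro p
  obtain ⟨b, hb⟩ := exists_not_equiv p
  obtain ⟨q, hq, hqE, hqc⟩ := exists_decide p hb (!(decide (C 0 = C b)))
  refine ⟨q, hq, ?_⟩
  rw [disjoint_singleton_right]
  intro hC
  have h1 := hC 0 b hqE
  rw [hqc] at h1
  by_cases h : C 0 = C b
  · simp [h] at h1
  · simp [h] at h1

theorem axiomANumber_le_covJ : axiomANumber ≤ covJ := by
  apply le_csInf
  · refine ⟨_, Filter.hyperfilter ℕ, Filter.hyperfilter_le_cofinite, range fun C => {C}, ?_, ?_,
      rfl⟩
    · rintro _ ⟨C, rfl⟩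
      exact isNull_singleton C
    · rw [eq_univ_iff_forall]
      intro C
      exact ⟨{C}, ⟨C, rfl⟩, rfl⟩
  · rintro κ ⟨U, hU, F, hF, hcov, rfl⟩
    exact axiomANumber_le_of_cover hU hF hcov

/-! ### Splitting and null sets -/

lemma exists_split_infinite {J : Set ℕ} (hJ : J.Infinite) :
    ∃ A ⊆ J, A.Infinite ∧ (J \ A).Infinite := by
  let φ := hJ.natEmbedding
  have hinj : Function.Injective fun k => (φ k : ℕ) := Subtype.val_injective.comp φ.injective
  refine ⟨range fun k => (φ (2 * k) : ℕ), ?_, ?_, ?_⟩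
  · rintro _ ⟨k, rfl⟩
    exact (φ (2 * k)).2
  · refine infinite_range_of_injective fun k l hkl => ?_
    have := hinj hkl
    omega
  · refine (infinite_range_of_injective (f := fun k => (φ (2 * k + 1) : ℕ)) fun k l hkl => ?_).mono ?_
    · have := hinj hkl
      omega
    · rintro _ ⟨k, rfl⟩
      refine ⟨(φ (2 * k + 1)).2, ?_⟩
      rintro ⟨l, hl⟩
      have := hinj hl
      omega

/-- Splitting a family of open sets along a function. -/
lemma split_along {X : Set ℝ} (hS : SplitOmegaLambda X) {v : ℕ → Set X}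
    (hopen : ∀ n, IsOpen (v n)) (hv : ∀ x, {n | x ∈ v n} ∈ U) (f : ℕ → ℕ)
    (hf : ∀ j, {n | f n = j} ∉ U) :
    ∃ A : Set ℕ, ∀ x, {j | j ∈ A ∧ ∃ n, f n = j ∧ x ∈ v n}.Infinite ∧
      {j | j ∉ A ∧ ∃ n, f n = j ∧ x ∈ v n}.Infinite := by
  classical
  let w : ℕ → Set X := fun j => ⋃ n ∈ {n | f n = j}, v n
  have hw : ∀ j x, x ∈ w j ↔ ∃ n, f n = j ∧ x ∈ v n := by
    intro j x
    simp only [w, mem_iUnion, mem_ofPred_eq, exists_prop]
  let J : Set ℕ := {j | w j = univ}
  rcases J.finite_or_infinite with hJ | hJ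
  · have hJU : (⋃ j ∈ J, {n | f n = j}) ∉ U := biUnion_notMem hJ fun j _ => hf j
    have homega : ∀ T : Set X, T.Finite → ∃ j ∉ J, T ⊆ w j := by
      intro T hT
      have h1 : (⋂ x ∈ T, {n | x ∈ v n}) ∈ U := (Filter.biInter_mem hT).2 fun x _ => hv x
      have h2 := Filter.inter_mem h1 (Ultrafilter.compl_mem_iff_notMem.2 hJU)
      obtain ⟨n, hn, hn'⟩ := Ultrafilter.nonempty_of_mem h2
      refine ⟨f n, fun h => hn' ?_, fun x hx => (hw _ _).2 ⟨n, rfl, mem_iInter₂.1 hn x hx⟩⟩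
      simp only [mem_iUnion]
      exact ⟨f n, h, rfl⟩
    obtain ⟨V, W, hVW, hdisj, ⟨V', hV', hVl⟩, ⟨W', hW', hWl⟩⟩ := hS (w '' Jᶜ)
      { isOpen := by
          rintro _ ⟨j, -, rfl⟩
          exact isOpen_biUnion fun n _ => hopen n
        covers := by
          rw [eq_univ_iff_forall]
          intro x
          obtain ⟨j, hj, hjx⟩ := homega {x} (finite_singleton x)
          exact ⟨w j, ⟨j, hj, rfl⟩, hjx rfl⟩
        proper := by
          rintro ⟨j, hj, hju⟩
          exact hj hju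
        omega := fun T hT => by
          obtain ⟨j, hj, hjT⟩ := homega T hT
          exact ⟨w j, ⟨j, hj, rfl⟩, hjT⟩ }
    refine ⟨{j | w j ∈ V}, fun x => ⟨?_, ?_⟩⟩
    · refine Infinite.of_image w ((hVl.large x).mono ?_)
      rintro u ⟨hu, hxu⟩
      obtain ⟨j, hj, rfl⟩ : u ∈ w '' Jᶜ := hVW ▸ Or.inl (hV' hu)
      exact ⟨j, ⟨hV' hu, (hw j x).1 hxu⟩, rfl⟩
    · refine Infinite.of_image w ((hWl.large x).mono ?_)
      rintro u ⟨hu, hxu⟩
      obtain ⟨j, hj, rfl⟩ : u ∈ w '' Jᶜ := hVW ▸ Or.inr (hW' hu)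
      exact ⟨j, ⟨fun h => disjoint_left.1 hdisj h (hW' hu), (hw j x).1 hxu⟩, rfl⟩
  · obtain ⟨A, hAJ, hA, hA'⟩ := exists_split_infinite hJ
    refine ⟨A, fun x => ⟨hA.mono ?_, hA'.mono ?_⟩⟩
    · intro j hj
      have : w j = univ := hAJ hj
      exact ⟨hj, (hw j x).1 (this ▸ mem_univ x)⟩
    · rintro j ⟨hj, hjA⟩
      have : w j = univ := hj
      exact ⟨hjA, (hw j x).1 (this ▸ mem_univ x)⟩

/-- In the previous lemma one of the two sets has a preimage outside `U`. -/
lemma split_along' {X : Set ℝ} (hS : SplitOmegaLambda X) {v : ℕ → Set X}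
    (hopen : ∀ n, IsOpen (v n)) (hv : ∀ x, {n | x ∈ v n} ∈ U) (f : ℕ → ℕ)
    (hf : ∀ j, {n | f n = j} ∉ U) :
    ∃ A : Set ℕ, {n | f n ∈ A} ∉ U ∧ ∀ x, {j | j ∈ A ∧ ∃ n, f n = j ∧ x ∈ v n}.Infinite ∧
      {j | j ∉ A ∧ ∃ n, f n = j ∧ x ∈ v n}.Infinite := by
  obtain ⟨A, hA⟩ := split_along hS hopen hv f hf
  by_cases h : {n | f n ∈ A} ∈ U
  · refine ⟨Aᶜ, ?_, fun x => ⟨(hA x).2, ?_⟩⟩
    · exact Ultrafilter.compl_notMem_iff.2 h
    · simpa only [mem_compl_iff, not_not] using (hA x).1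
  · exact ⟨A, h, hA⟩

/-- Two disjoint such sets. -/
lemma split_along_two {X : Set ℝ} (hS : SplitOmegaLambda X) {v : ℕ → Set X}
    (hopen : ∀ n, IsOpen (v n)) (hv : ∀ x, {n | x ∈ v n} ∈ U) (f : ℕ → ℕ)
    (hf : ∀ j, {n | f n = j} ∉ U) :
    ∃ A B : Set ℕ, Disjoint A B ∧ {n | f n ∈ A} ∉ U ∧ {n | f n ∈ B} ∉ U ∧
      ∀ x, {j | j ∈ A ∧ ∃ n, f n = j ∧ x ∈ v n}.Infinite ∧
        {j | j ∈ B ∧ ∃ n, f n = j ∧ x ∈ v n}.Infinite := by
  classical
  obtain ⟨A, hAU, hA⟩ := split_along' hS hopen hv f hf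
  let f₂ : ℕ → ℕ := fun n => if f n ∈ A then 0 else f n + 1
  have hf₂ : ∀ j, {n | f₂ n = j} ∉ U := by
    intro j h
    rcases j with _ | j
    · refine hAU (Filter.mem_of_superset h fun n hn => ?_)
      by_contra hnA
      have h1 : f₂ n = f n + 1 := if_neg hnA
      have h2 : f₂ n = 0 := hn
      omega
    · refine hf j (Filter.mem_of_superset h fun n hn => ?_)
      have h2 : f₂ n = j + 1 := hn
      by_cases hnA : f n ∈ A
      · have h1 : f₂ n = 0 := if_pos hnA
        omega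
      · have h1 : f₂ n = f n + 1 := if_neg hnA
        show f n = j
        omega
  obtain ⟨Q, hQU, hQ⟩ := split_along' hS hopen hv f₂ hf₂
  refine ⟨A, {j | j ∉ A ∧ j + 1 ∈ Q}, ?_, hAU, ?_, fun x => ⟨(hA x).1, ?_⟩⟩
  · rw [disjoint_left]
    exact fun j hj hj' => hj'.1 hj
  · intro h
    refine hQU (Filter.mem_of_superset h ?_)
    rintro n ⟨hn, hn'⟩
    have h1 : f₂ n = f n + 1 := if_neg hn
    show f₂ n ∈ Q
    rw [h1]
    exact hn'
  · have h1 := (((hQ x).1).sdiff (finite_singleton 0)).image (f := Nat.pred) ?_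
    · refine h1.mono ?_
      rintro _ ⟨j, ⟨⟨hjQ, n, hn, hx⟩, hj0⟩, rfl⟩
      rcases j with _ | j
      · exact absurd rfl hj0
      · have hnA : f n ∉ A := by
          intro hnA
          have h1 : f₂ n = 0 := if_pos hnA
          omega
        have h1 : f₂ n = f n + 1 := if_neg hnA
        have h2 : f n = j := by omega
        refine ⟨⟨?_, hjQ⟩, n, h2, hx⟩
        show j ∉ A
        rw [← h2]
        exact hnA
    · rintro i ⟨-, hi⟩ j ⟨-, hj⟩ hij
      have hi' : i ≠ 0 := hi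
      have hj' : j ≠ 0 := hj
      have : i - 1 = j - 1 := hij
      omega

/-- The set of colourings which do not split all the members of the family is null. -/
lemma isNull_of_split {X : Set ℝ} (hS : SplitOmegaLambda X) {v : ℕ → Set X}
    (hopen : ∀ n, IsOpen (v n)) (hv : ∀ x, {n | x ∈ v n} ∈ U) :
    IsNull U {C | ∃ x : X, ¬ ({n | x ∈ v n ∧ C n = true}.Infinite ∧
      {n | x ∈ v n ∧ C n = false}.Infinite)} := by
  classical
  intro p
  -- the colour of `U`
  obtain ⟨c, hc⟩ : ∃ c, {n | p.chi n = c} ∈ U := by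
    by_cases h : {n | p.chi n = true} ∈ U
    · exact ⟨true, h⟩
    · refine ⟨false, Filter.mem_of_superset (Ultrafilter.compl_mem_iff_notMem.2 h) ?_⟩
      intro n hn
      simpa using hn
  have hc' : {n | p.chi n ≠ c} ∉ U := fun h =>
    Ultrafilter.compl_notMem_iff.2 hc (Filter.mem_of_superset h fun n hn => hn)
  -- representatives
  let st : Setoid ℕ := ⟨p.E, p.equiv⟩
  let rep : ℕ → ℕ := fun n => (Quotient.mk st n).out
  have hrepE : ∀ n, p.E (rep n) n := fun n => Quotient.mk_out (s := st) n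
  have hrep : ∀ a b, p.E a b → rep a = rep b := by
    intro a b hab
    have : Quotient.mk st a = Quotient.mk st b := Quotient.sound (s := st) hab
    show (Quotient.mk st a).out = (Quotient.mk st b).out
    rw [this]
  let f : ℕ → ℕ := fun n => if p.chi n = c then rep n + 1 else 0
  have hfpos : ∀ n, p.chi n = c → f n = rep n + 1 := fun n hn => if_pos hn
  have hfneg : ∀ n, p.chi n ≠ c → f n = 0 := fun n hn => if_neg hn
  have hf : ∀ j, {n | f n = j} ∉ U := by
    intro j h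
    rcases j with _ | j
    · refine hc' (Filter.mem_of_superset h fun n hn => ?_)
      intro hn'
      have h1 := hfpos n hn'
      have h2 : f n = 0 := hn
      omega
    · refine p.small j (Filter.mem_of_superset h fun n hn => ?_)
      have h2 : f n = j + 1 := hn
      by_cases hn' : p.chi n = c
      · have h1 := hfpos n hn'
        have h3 : rep n = j := by omega
        show p.E j n
        rw [← h3]
        exact hrepE n
      · have h1 := hfneg n hn'
        omega
  obtain ⟨A, B, hAB, hAU, hBU, hx⟩ := split_along_two hS hopen hv f hf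
  have hMU : ∀ P : Set ℕ, {n | f n ∈ P} ∉ U → {n | rep n + 1 ∈ P} ∉ U := by
    intro P hP h
    have h1 : {n | f n ∈ P} ∪ {n | p.chi n ≠ c} ∈ U := by
      refine Filter.mem_of_superset h fun n hn => ?_
      by_cases hn' : p.chi n = c
      · left
        show f n ∈ P
        rw [hfpos n hn']
        exact hn
      · exact Or.inr hn'
    rcases Ultrafilter.union_mem_iff.1 h1 with h2 | h2
    · exact hP h2
    · exact hc' h2
  have hM : {n | rep n + 1 ∈ A} ∪ {n | rep n + 1 ∈ B} ∉ U := by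
    intro h
    rcases Ultrafilter.union_mem_iff.1 h with h2 | h2
    · exact hMU A hAU h2
    · exact hMU B hBU h2
  have hsat : ∀ a b, p.E a b → a ∈ {n | rep n + 1 ∈ A} ∪ {n | rep n + 1 ∈ B} →
      b ∈ {n | rep n + 1 ∈ A} ∪ {n | rep n + 1 ∈ B} := by
    rintro a b hab (h | h)
    · left
      show rep b + 1 ∈ A
      rw [← hrep a b hab]
      exact h
    · right
      show rep b + 1 ∈ B
      rw [← hrep a b hab]
      exact h
  let s : ℕ → Bool := fun n => decide (rep n + 1 ∈ B)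
  have hs : ∀ a b, p.E a b → s a = s b := by
    intro a b hab
    show decide (rep a + 1 ∈ B) = decide (rep b + 1 ∈ B)
    rw [hrep a b hab]
  refine ⟨merge p _ hsat hM s, merge_le p hsat hM hs, ?_⟩
  rw [disjoint_left]
  rintro C hC ⟨x, hCx⟩
  apply hCx
  -- the colouring is constant on each half
  have hchiA : ∀ n, p.chi n = c → rep n + 1 ∈ A → xor (p.chi n) (s n) = c := by
    intro n hn hnA
    have : s n = false := decide_eq_false (disjoint_left.1 hAB hnA)
    rw [this, hn]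
    simp
  have hchiB : ∀ n, p.chi n = c → rep n + 1 ∈ B → xor (p.chi n) (s n) = !c := by
    intro n hn hnB
    have : s n = true := decide_eq_true hnB
    rw [this, hn]
    simp
  have hinf : ∀ P : Set ℕ, {j | j ∈ P ∧ ∃ n, f n = j ∧ x ∈ v n}.Infinite →
      {n | x ∈ v n ∧ p.chi n = c ∧ rep n + 1 ∈ P}.Infinite := by
    intro P hP
    refine Infinite.of_image f ((hP.sdiff (finite_singleton 0)).mono ?_)
    rintro j ⟨⟨hjP, n, hn, hnx⟩, hj0⟩
    have hj0' : j ≠ 0 := hj0
    have hnc : p.chi n = c := by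
      by_contra hnc
      have := hfneg n hnc
      omega
    refine ⟨n, ⟨hnx, hnc, ?_⟩, hn⟩
    rw [← hfpos n hnc, hn]
    exact hjP
  have hAi := hinf A (hx x).1
  have hBi := hinf B (hx x).2
  obtain ⟨a, -, hac, haA⟩ := hAi.nonempty
  have hCA : ∀ n, p.chi n = c → rep n + 1 ∈ A → C n = C a := by
    intro n hn hnA
    refine (hC n a (Or.inr ⟨Or.inl hnA, Or.inl haA⟩)).2 ?_
    show xor (p.chi n) (s n) = xor (p.chi a) (s a)
    rw [hchiA n hn hnA, hchiA a hac haA]
  have hCB : ∀ n, p.chi n = c → rep n + 1 ∈ B → C n = !(C a) := by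
    intro n hn hnB
    have h1 : C n ≠ C a := by
      intro h
      have h2 : xor (p.chi n) (s n) = xor (p.chi a) (s a) :=
        (hC n a (Or.inr ⟨Or.inr hnB, Or.inl haA⟩)).1 h
      rw [hchiB n hn hnB, hchiA a hac haA] at h2
      revert h2
      cases c <;> simp
    revert h1
    cases C n <;> cases C a <;> simp
  have hA2 : {n | x ∈ v n ∧ C n = C a}.Infinite := by
    refine hAi.mono ?_
    rintro n ⟨h1, h2, h3⟩
    exact ⟨h1, hCA n h2 h3⟩
  have hB2 : {n | x ∈ v n ∧ C n = !(C a)}.Infinite := by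
    refine hBi.mono ?_
    rintro n ⟨h1, h2, h3⟩
    exact ⟨h1, hCB n h2 h3⟩
  cases hCa : C a with
  | false =>
    rw [hCa] at hA2 hB2
    exact ⟨by simpa using hB2, hA2⟩
  | true =>
    rw [hCa] at hA2 hB2
    exact ⟨hA2, by simpa using hB2⟩

/-! ### The covering number is at most the additivity number -/

/-- An ultrafilter containing a given family. -/
lemma exists_ultrafilter {ι : Type} (h : ι → Set ℕ)
    (hinf : ∀ F : Finset ι, (⋂ x ∈ F, h x).Infinite) :
    ∃ U : Ultrafilter ℕ, (U : Filter ℕ) ≤ Filter.cofinite ∧ ∀ x, h x ∈ U := by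
  classical
  let G : Finset ι × ℕ → Set ℕ := fun q => (⋂ x ∈ q.1, h x) \ Iio q.2
  let fil : Filter ℕ :=
    { sets := {A | ∃ q, G q ⊆ A}
      univ_sets := ⟨(∅, 0), subset_univ _⟩
      sets_of_superset := fun ⟨q, hq⟩ hxy => ⟨q, hq.trans hxy⟩
      inter_sets := by
        rintro A A' ⟨q, hq⟩ ⟨q', hq'⟩
        refine ⟨(q.1 ∪ q'.1, max q.2 q'.2), fun n hn => ?_⟩
        simp only [G, mem_sdiff, mem_iInter, Finset.mem_union, mem_Iio, lt_max_iff, not_or] at hn
        exact ⟨hq ⟨mem_iInter₂.2 fun x hx => hn.1 x (Or.inl hx), hn.2.1⟩,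
          hq' ⟨mem_iInter₂.2 fun x hx => hn.1 x (Or.inr hx), hn.2.2⟩⟩ }
  have hmem : ∀ A, A ∈ fil ↔ ∃ q, G q ⊆ A := fun A => Iff.rfl
  have hGinf : ∀ q, (G q).Infinite := fun q => (hinf q.1).sdiff (finite_Iio q.2)
  have hne : fil.NeBot := by
    refine Filter.neBot_iff.2 fun hbot => ?_
    obtain ⟨q, hq⟩ := (hmem _).1 (Filter.empty_mem_iff_bot.2 hbot)
    exact (hGinf q).nonempty.ne_empty (subset_empty_iff.1 hq)
  have hcof : fil ≤ Filter.cofinite := by
    intro A hA
    rw [Filter.mem_cofinite] at hA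
    obtain ⟨m, hm⟩ := hA.bddAbove
    refine ⟨(∅, m + 1), fun n hn => ?_⟩
    by_contra hcon
    have := hm hcon
    have h2 := hn.2
    simp only [mem_Iio, not_lt] at h2
    omega
  refine ⟨Ultrafilter.of fil, (Ultrafilter.of_le fil).trans hcof, fun x => ?_⟩
  exact Ultrafilter.of_le fil ⟨({x}, 0), fun n hn => by simpa using hn.1⟩

/-- A colouring which splits all the sets given by a countable subcover splits the cover. -/
lemma splits_of_coloring {X : Set ℝ} {Cv : Set (Set X)} (hC : IsOmegaCover X Cv)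
    {D : Set (Set X)} (hDC : D ⊆ Cv) (e : ℕ ≃ D) (C : ℕ → Bool)
    (hsp : ∀ x : X, {n | x ∈ (e n : Set X) ∧ C n = true}.Infinite ∧
      {n | x ∈ (e n : Set X) ∧ C n = false}.Infinite) :
    ∃ V W : Set (Set X), V ∪ W = Cv ∧ Disjoint V W ∧
      (∃ V' ⊆ V, IsLargeCover X V') ∧ ∃ W' ⊆ W, IsLargeCover X W' := by
  have hproper : (univ : Set X) ∉ D := fun h => hC.proper (hDC h)
  have einj : Function.Injective (fun n => (e n : Set X)) :=
    Subtype.val_injective.comp e.injective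
  have key : ∀ S : Set ℕ, (∀ x : X, ({n : ℕ | x ∈ (e n : Set X)} ∩ S).Infinite) →
      IsLargeCover X ((fun n => (e n : Set X)) '' S) := by
    intro S hS
    refine ⟨⟨?_, ?_, ?_⟩, ?_⟩
    · rintro _ ⟨n, -, rfl⟩
      exact hC.isOpen _ (hDC (e n).2)
    · rw [eq_univ_iff_forall]
      intro x
      obtain ⟨n, hn, hnS⟩ := (hS x).nonempty
      exact ⟨_, ⟨n, hnS, rfl⟩, hn⟩
    · rintro ⟨n, -, hn⟩
      exact hproper (by rw [← hn]; exact (e n).2)
    · intro x
      refine ((hS x).image einj.injOn).mono ?_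
      rintro _ ⟨n, ⟨hn, hnS⟩, rfl⟩
      exact ⟨⟨n, hnS, rfl⟩, hn⟩
  refine ⟨Cv \ ((fun n => (e n : Set X)) '' {n | C n = false}),
    (fun n => (e n : Set X)) '' {n | C n = false}, ?_, ?_,
    ⟨(fun n => (e n : Set X)) '' {n | C n = true}, ?_, key _ fun x => (hsp x).1⟩,
    ⟨(fun n => (e n : Set X)) '' {n | C n = false}, Subset.rfl, key _ fun x => (hsp x).2⟩⟩
  · apply sdiff_union_of_subset
    rintro _ ⟨n, -, rfl⟩
    exact hDC (e n).2
  · exact disjoint_sdiff_left
  · rintro _ ⟨n, hn, rfl⟩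
    refine ⟨hDC (e n).2, ?_⟩
    rintro ⟨m, hm, hmn⟩
    have h1 : m = n := einj hmn
    subst h1
    have h2 : C m = true := hn
    have h3 : C m = false := hm
    rw [h2] at h3
    exact Bool.noConfusion h3

theorem covJ_le_addSplit : covJ ≤ addSplit := by
  classical
  obtain ⟨F, hF, hns, hcard⟩ := AddLeCofU.result.1
  rw [← hcard]
  unfold SplitOmegaLambda at hns
  push Not at hns
  obtain ⟨Cv, hC, hno⟩ := hns
  obtain ⟨D, hDC, hDc, hD⟩ := countable_subcover hC
  have hproper : (univ : Set (⋃₀ F)) ∉ D := fun h => hC.proper (hDC h)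
  have hDinf : D.Infinite := by
    have := infinite_above hproper hD ∅ finite_empty
    simpa using this
  have : Countable D := hDc
  have : Infinite D := hDinf.to_subtype
  obtain ⟨e⟩ : Nonempty (ℕ ≃ D) := by
    obtain ⟨_⟩ := nonempty_denumerable D
    exact ⟨(Denumerable.eqv D).symm⟩
  have hinf : ∀ T : Finset (⋃₀ F), (⋂ x ∈ T, {n : ℕ | x ∈ (e n : Set (⋃₀ F))}).Infinite := by
    intro T
    have h1 := infinite_above hproper hD T T.finite_toSet
    have h2 : {u ∈ D | (T : Set (⋃₀ F)) ⊆ u} ⊆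
        (fun n => (e n : Set (⋃₀ F))) '' (⋂ x ∈ T, {n : ℕ | x ∈ (e n : Set (⋃₀ F))}) := by
      rintro u ⟨hu, hFu⟩
      refine ⟨e.symm ⟨u, hu⟩, mem_iInter₂.2 fun x hx => ?_, by simp⟩
      simpa using hFu hx
    exact (h1.mono h2).of_image _
  obtain ⟨U, hU, hUx⟩ := exists_ultrafilter (fun x : ⋃₀ F => {n : ℕ | x ∈ (e n : Set (⋃₀ F))}) hinf
  let Z : Set ℝ → Set (ℕ → Bool) := fun Y => {C | ∃ x : ⋃₀ F, (x : ℝ) ∈ Y ∧
    ¬ ({n | x ∈ (e n : Set (⋃₀ F)) ∧ C n = true}.Infinite ∧
      {n | x ∈ (e n : Set (⋃₀ F)) ∧ C n = false}.Infinite)}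
  have hnull : ∀ Y ∈ F, IsNull U (Z Y) := by
    intro Y hY
    have hsub : Y ⊆ ⋃₀ F := subset_sUnion_of_mem hY
    have h1 := isNull_of_split (U := U) (hF Y hY) (v := fun n => inclusion hsub ⁻¹' (e n : Set (⋃₀ F)))
      (fun n => (hC.isOpen _ (hDC (e n).2)).preimage (continuous_inclusion hsub))
      (fun x => hUx (inclusion hsub x))
    intro p
    obtain ⟨q, hq, hqd⟩ := h1 p
    refine ⟨q, hq, hqd.mono_right ?_⟩
    rintro C ⟨x, hxY, hx⟩
    exact ⟨⟨x, hxY⟩, hx⟩
  have hcov : ⋃₀ (Z '' F) = univ := by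
    rw [eq_univ_iff_forall]
    intro C
    by_contra hcon
    have hsp : ∀ x : ⋃₀ F, {n | x ∈ (e n : Set (⋃₀ F)) ∧ C n = true}.Infinite ∧
        {n | x ∈ (e n : Set (⋃₀ F)) ∧ C n = false}.Infinite := by
      intro x
      by_contra hx
      obtain ⟨Y, hY, hxY⟩ := x.2
      exact hcon ⟨Z Y, ⟨Y, hY, rfl⟩, x, hxY, hx⟩
    obtain ⟨V, W, h1, h2, ⟨V', h3, h4⟩, ⟨W', h5, h6⟩⟩ := splits_of_coloring hC hDC e C hsp
    exact hno V W h1 h2 ⟨V', h3, h4⟩ W' h5 h6
  have h1 : covJ ≤ #(Z '' F) := by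
    apply csInf_le'
    refine ⟨U, hU, Z '' F, ?_, hcov, rfl⟩
    rintro _ ⟨Y, hY, rfl⟩
    exact hnull Y hY
  exact h1.trans Cardinal.mk_image_le

/-- **Theorem.** `ℵ₁ ≤ 𝔪(Axiom A) ≤ cov(J) ≤ add(Split(Ω, Λ))`. -/
theorem result : ℵ₁ ≤ axiomANumber ∧ axiomANumber ≤ covJ ∧ covJ ≤ addSplit :=
  ⟨aleph_one_le_axiomANumber, axiomANumber_le_covJ, covJ_le_addSplit⟩

end Pool.Agent.Results.MP_312f56_gt.ForcingLower
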